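import Pool.Agent.R910.Pow.AJPow

/-!
# MP_386e47_ag: injectivity of the `p`-adic Abel-Jacobi map, from powers of one divisor class

Let `K` be a number field and `p` a prime number. All varieties are smooth, projective and geometrically integral over
`K`, and `CH ^ m (X)` is the Chow group with rational coefficients; the `p`-adic Abel-Jacobi map goes from the
homologically trivial classes in `CH ^ m (X)` to the continuous cohomology group `H ^ 1 (K, H ^ (2 m - 1) (X, ℚ_p(m)))`.

**Theorem.** These are equivalent.

1. The `p`-adic Abel-Jacobi map is injective on the homologically trivial classes in `CH ^ m (X)` for all varieties `X`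
   over `K` and all `m` (hence on the Chow groups of all Chow motives over `K`).
2. The same for all rational varieties over `K`.
3. If a linear combination `∑ a_s D_s ^ m` of powers of divisor classes on a rational variety over `K` (that is, a
   homogeneous polynomial in divisor classes) is homologically trivial and in the kernel of the Abel-Jacobi map, then
   it is `0`.
4. If `Y` is a rational variety over `K`, `D` is a divisor class on `Y` and `D ^ r` is homologically trivial and in the
   kernel of the `p`-adic Abel-Jacobi map, then `D ^ r = 0` in `CH ^ r (Y)`.

So for each `K` and each `p` the question Q1 is a question on single divisor classes on rational varieties `Y`, for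
which `CH ^ 1 (Y)` is the finite-dimensional Néron-Severi group. (A Chow motive `M = (X, e, n)` has
`CH(M) = e_* CH ^ n (X)`, and the Abel-Jacobi map of `M` is the restriction of the one of `X`; a smooth projective
scheme over `K` is a disjoint union of geometrically integral varieties over finite extensions `L` of `K`, for which the
theorem is applied with `L` instead of `K`.) The method is that of `MP_a1cc03_ag.DivisorPowers` and of the other results
of helper910 which are imported here.

In the Lean statement `𝒮` is the set of all varieties and `ℛ` the set of all rational varieties (or `ℛ = 𝒮`), and these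
structures collect the known theorems which are used.

* `AJData.IsFunctorial`: the Abel-Jacobi map is compatible with pull-back, push-forward and products. For the
  `p`-adic Abel-Jacobi map `J X` is the sum of the groups `H ^ 1 (K, H ^ (2 m - 1) (X, ℚ_p(m)))`; the three operations
  exist for continuous étale cohomology and are compatible with the Hochschild-Serre spectral sequence.
* `HasHulls`: the variety `X` is birational to a hypersurface in `ℙ ^ (n + 1)`; by Hironaka there is a smooth divisor
  `X'` on a rational variety `B'` of dimension `n + 1` with a birational morphism `X' → X`. Let `B` be the blow-up of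
  `B' × ℙ ^ 1` in `X' × 0` and `E` its exceptional divisor. Then `p_* i^* i_* p^* w = - w` for `p : E → X' → X` and
  `i : E → B`.
* `HasProjectiveBundles`: vector bundles, their Chern classes and Chern characters (with the identities of Newton),
  sums, tensor products, Serre's theorem (for `V` there is a line bundle `L` such that `V ⊗ L` is a sub-bundle of a
  trivial bundle), the isomorphism `ch : K_0(X) → CH(X)` (rationally), and projective bundles: they are rational for
  rational `X`, `q_* ξ ^ (r - 1) = 1`, `q_* ξ ^ i = 0` for `i < r - 1`, `∑ c_i ξ ^ (r - i) = 0`.

Proof of 4 ⇒ 1. By `HasHulls` it suffices to consider classes `w` of codimension `m ≥ 1` on rational varieties `X`.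
Choose bundles `V`, `V'` with `ch V - ch V' = N w`, `N ≠ 0`, and `L`, `Q` with `ch(V' ⊗ L) + ch(Q) = n`. Then
`U = (V ⊗ L) ⊕ Q` has the Chern character `n + N w ch(L)`, so that the Chern classes of `U` of positive degree are
multiples of `w`, and `w` is in the ideal which they generate. Let `q : Y → X` be the projective bundle of `U`, of
rank `r`, and `D = ξ`. Then `D ^ r` is a multiple of `q^* w`, and `w` is in the ideal `q_*(D ^ r · CH(Y))` of `CH(X)`.
-/

open CategoryTheory AlgebraicGeometry
open Pool.Agent.H914 Pool.Agent.H914.VarClass Pool.Agent.H914.VarClass.Obj

universe u v w w'

namespace Pool.Agent.Results.MP_386e47_ag.PowersOfOneDivisor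

open Pool.Agent.R903 Pool.Agent.R910.Nil Pool.Agent.R910.Pow

/-- **The `p`-adic Abel-Jacobi maps are injective if and only if they are injective on powers of one divisor class
on rational varieties.** -/
theorem result {K : Type u} [Field K] [NumberField K] {𝒱 : VarClass K} {C : ChowTheory.{u, v} 𝒱}
    (A : AJData.{u, v, w} C) (hA : A.IsFunctorial) (B : BundleData.{u, v, w'} C)
    (𝒮 ℛ : Set 𝒱.Obj) (hH : HasHulls C 𝒮 ℛ) (hR : HasProjectiveBundles B ℛ) :
    List.TFAE [AJInjective A 𝒮, AJInjective A ℛ, AJInjectiveForPolynomials A ℛ,
      AJInjectiveForPowers A ℛ] :=
  ajInjective_tfae_powers hA hH hR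

end Pool.Agent.Results.MP_386e47_ag.PowersOfOneDivisor
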